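import Pool.Agent.W_MP_f61043_lc.Inst
import Pool.Agent.W_MP_f61043_lc.CoreP
import Pool.Agent.W_MP_f61043_lc.Least
import Pool.Agent.W_MP_f61043_lc.Core2
import Pool.Agent.W_MP_f61043_h40.ModelF

set_option autoImplicit false

/-!
# MP_f61043_lc, Q1 : the polarized relation is not a theorem of ZFC + GCH

If GCH holds then there is a countable well-founded model `(M, E)` of ZFC + GCH in which the polarized partition
relation `(κ ; κ⁺) → (κ κ ; κ κ)` is false for the least singular cardinal `κ` of uncountable cofinality,
`κ = ℵ_(ω₁)`.

Proof: let `κ_t = ℵ_(1+t)` for `t < ω₁` and `κ = ℵ_(ω₁)`.  A condition has a height `ζ < κ⁺`, functions `g_ξ ∈ ∏ κ_(t+1)` for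
`ξ ≤ ζ` which are increasing modulo bounded sets and continuous at ordinals of countable cofinality, and for every `t` a
structure `w_t` on an ordinal `γ_t < κ_(t+1)` (with `γ_t = g_ζ(t)` for large `t`) which gives finite subsets `w_t(x, z)` of `ω_(1+t)` for
`x < z ≤ γ_t`, coherently (`D_v(z) = {x < z : w_t(x, z) ⊆ v + 1}`, and `D_v(y) = D_v(z) ∩ y` for `y ∈ D_v(z)`), with
`|D_v(z)| ≤ κ_s` for `v < ω_(1+s+1)`, `s < t`, such that the functions `w_t(x, z)` and `w_t(x, δ)` of `x` differ, for `x` in an end segment of a
limit `δ < z`, by a fixed finite set; and `w_t(g_ξ(t), g_ξ'(t))` is constant for large `t`.  The forcing is a product of small parts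
and distributive tails, so it preserves cardinals and GCH and adds no `ω₁`-sequences.  The colour of `(ξ, α)` is the value
of a splitting family (from CH) at the finite set of the levels of `w_t(g_ξ(t), α)` if `α` has the level `t` and `g_ξ(t) ≤ α`; if
`α < g_ξ(t)` one passes from `α` to a point of a smaller level which codes `max w_t(α, g_ξ(t))` and the order type of
`D_v(α)` for this maximum `v`.  Every set of `κ` columns contains countably many columns which are split by all but
fewer than `κ` rows.
-/

universe u

namespace Pool.Agent.Results.MP_f61043_lc.FailsAtAlephOmegaOne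

open Cardinal F61 Pool.Agent.W_MP_315f31_lc W61

/-- Under GCH there is a countable well-founded model of ZFC + GCH in which the polarized relation
`(κ ; κ⁺) → (κ κ ; κ κ)` fails for the least singular cardinal `κ` of uncountable cofinality. -/
theorem result (hG : ∀ μ : Cardinal.{u}, Cardinal.aleph0 ≤ μ →
      (2 : Cardinal.{u}) ^ μ = Order.succ μ) :
    ∃ (M : Type (u + 1)) (E : M → M → Prop), Countable M ∧ WellFounded E ∧ HESR.IsZFC E ∧
      SQR.GCH E ∧ PPR.PolFails E := by
  obtain ⟨S⟩ := exists_sett hG
  have : Nontrivial (DP S) := ⟨⊤, ⊥, top_ne_bot_DP S⟩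
  exact F61M.model_of_coreF (D := DP S) { toCoreF := coreF S, least := least_P S }

end Pool.Agent.Results.MP_f61043_lc.FailsAtAlephOmegaOne
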