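import Pool.Agent.W_MP_f61043B_lc.Inst
import Pool.Agent.W_MP_f61043B_lc.CoreB
import Pool.Agent.W_MP_f61043B_h40.ModelG

set_option autoImplicit false

/-!
# MP_f61043_lc, Q1 : the relation may hold for all singular cardinals of uncountable cofinality

If GCH holds and there is an inaccessible cardinal which is a limit of measurable cardinals then there is a countable
well-founded model `(M, E)` of ZFC + GCH in which the polarized partition relation `(κ ; κ⁺) → (κ κ ; κ κ)` holds for all singular
cardinals `κ` of uncountable cofinality.

Proof: let `θ` be the least inaccessible limit of measurable cardinals, `θ_0 = ω`, `θ_(i+1)` the least measurable cardinal above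
`θ_i`, and `θ_δ = sup θ_i` for limits `δ`.  The forcing is the product with bounded support of the collapses
`Col(θ_i⁺⁺, < θ_(i+1))`, `i < θ`; the model is `V_θ` of the extension (in a countable elementary submodel).  In it the singular
cardinals are the `θ_δ`, `δ` a limit.  The colourings are analysed with the poset `R` of the functions which assign to every `i` a
function from `θ_(i+1)` to the conditions at the coordinate `i`, modulo normal ultrafilters (only completeness is used): its
tails are closed, the stem map to the forcing is a projection-like map, and every name of a truth value for almost all `α < θ_(i+1)`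
can be decided up to the coordinates below `i_0`.  Given a colouring of `θ_δ × θ_δ⁺` one finds a column `ξ*`, for every `l` in a cofinal
subset of `δ` a set of `θ_(l+1)` columns which have the same colours as `ξ*` in the rows below `θ_(l+1)` and the same colours as `ξ*` in almost all
rows of the later levels, and homogeneous sets of rows which are unbounded in `θ_(l+1)`.
-/

universe u

namespace Pool.Agent.Results.MP_f61043_lc.HoldsForAll

open Cardinal F61B Pool.Agent.W_MP_315f31_lc W61

/-- Assume GCH and that there is an inaccessible cardinal `θ` which is a limit of measurable cardinals.  Then there is a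
countable well-founded model of ZFC + GCH in which the polarized relation `(κ ; κ⁺) → (κ κ ; κ κ)` holds for every singular
cardinal `κ` of uncountable cofinality. -/
theorem result (hG : ∀ μ : Cardinal.{u}, Cardinal.aleph0 ≤ μ →
      (2 : Cardinal.{u}) ^ μ = Order.succ μ)
    (hM : ∃ θ : Cardinal.{u}, θ.IsInaccessible ∧ ∀ μ < θ, ∃ lam, μ < lam ∧ lam < θ ∧ IsMeas lam) :
    ∃ (M : Type (u + 1)) (E : M → M → Prop), Countable M ∧ WellFounded E ∧ HESR.IsZFC E ∧
      SQR.GCH E ∧ PPR.HoldsAll E := by
  obtain ⟨θ, ⟨S⟩⟩ := exists_setB hG hM
  exact F61BM.model_of_coreG (coreG S) (top_ne_bot_DB S)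

end Pool.Agent.Results.MP_f61043_lc.HoldsForAll
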