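import Pool.Agent.W_MP_f61043_lc.Inst
import Pool.Agent.W_MP_f61043_lc.CoreP
import Pool.Agent.W_MP_f61043_lc.Least
import Pool.Agent.W_MP_f61043_lc.Core2
import Pool.Agent.W_MP_f61043_h40.ModelF
import Pool.Agent.W_MP_f61043B_lc.Inst
import Pool.Agent.W_MP_f61043B_lc.CoreB
import Pool.Agent.W_MP_f61043B_h40.ModelG

set_option autoImplicit false

/-!
# MP_f61043_lc, Q1 : the polarized relation is not decided by ZFC + GCH

Assume GCH.

1. There is a countable well-founded model of ZFC + GCH in which the polarized partition relation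
`(κ ; κ⁺) → (κ κ ; κ κ)` is false for the least singular cardinal `κ` of uncountable cofinality.  (No large cardinals;
proof: see `MP_f61043_lc.FailsAtAlephOmegaOne`.)

2. If there is an inaccessible cardinal which is a limit of measurable cardinals then there is a countable
well-founded model of ZFC + GCH in which the relation holds for all singular cardinals `κ` of uncountable cofinality.
(Proof: see `MP_f61043_lc.HoldsForAll`.)

So ZFC + GCH does not decide the question Q1.
-/

universe u

namespace Pool.Agent.Results.MP_f61043_lc.UndecidedByGCH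

open Cardinal Pool.Agent.W_MP_315f31_lc W61

/-- The forcing construction of the model in which the relation fails at the least singular cardinal of
uncountable cofinality. -/
theorem fails (hG : ∀ μ : Cardinal.{u}, Cardinal.aleph0 ≤ μ →
      (2 : Cardinal.{u}) ^ μ = Order.succ μ) :
    ∃ (M : Type (u + 1)) (E : M → M → Prop), Countable M ∧ WellFounded E ∧ HESR.IsZFC E ∧
      SQR.GCH E ∧ PPR.PolFails E := by
  obtain ⟨S⟩ := F61.exists_sett hG
  have : Nontrivial (F61.DP S) := ⟨⊤, ⊥, F61.top_ne_bot_DP S⟩
  exact F61M.model_of_coreF (D := F61.DP S) { toCoreF := F61.coreF S, least := F61.least_P S }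

/-- The forcing construction of the model in which the relation holds for all singular cardinals of
uncountable cofinality. -/
theorem holds (hG : ∀ μ : Cardinal.{u}, Cardinal.aleph0 ≤ μ →
      (2 : Cardinal.{u}) ^ μ = Order.succ μ)
    (hM : ∃ θ : Cardinal.{u}, θ.IsInaccessible ∧ ∀ μ < θ, ∃ lam, μ < lam ∧ lam < θ ∧ F61B.IsMeas lam) :
    ∃ (M : Type (u + 1)) (E : M → M → Prop), Countable M ∧ WellFounded E ∧ HESR.IsZFC E ∧
      SQR.GCH E ∧ PPR.HoldsAll E := by
  obtain ⟨θ, ⟨S⟩⟩ := F61B.exists_setB hG hM
  exact F61BM.model_of_coreG (F61B.coreG S) (F61B.top_ne_bot_DB S)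

/-- Assume GCH.  (1) There is a countable well-founded model of ZFC + GCH in which the relation
`(κ ; κ⁺) → (κ κ ; κ κ)` fails for the least singular cardinal of uncountable cofinality.  (2) If there is an
inaccessible cardinal which is a limit of measurable cardinals then there is a countable well-founded model of
ZFC + GCH in which the relation holds for every singular cardinal `κ` of uncountable cofinality. -/
theorem result (hG : ∀ μ : Cardinal.{u}, Cardinal.aleph0 ≤ μ →
      (2 : Cardinal.{u}) ^ μ = Order.succ μ) :
    (∃ (M : Type (u + 1)) (E : M → M → Prop), Countable M ∧ WellFounded E ∧ HESR.IsZFC E ∧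
      SQR.GCH E ∧ PPR.PolFails E) ∧
    ((∃ θ : Cardinal.{u}, θ.IsInaccessible ∧ ∀ μ < θ, ∃ lam, μ < lam ∧ lam < θ ∧ F61B.IsMeas lam) →
      ∃ (M : Type (u + 1)) (E : M → M → Prop), Countable M ∧ WellFounded E ∧ HESR.IsZFC E ∧
        SQR.GCH E ∧ PPR.HoldsAll E) :=
  ⟨fails hG, holds hG⟩

end Pool.Agent.Results.MP_f61043_lc.UndecidedByGCH
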