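import Pool.Agent.W_MP_f61043C_lc.Inst

set_option autoImplicit false

/-!
# MP_f61043_lc, Q1 : the relation holds if the cofinality of `κ` is weakly compact

Let `κ` be a singular strong limit cardinal whose cofinality `κ'` has the partition property `κ' → (κ')²₂` (so `κ'` is `ℵ₀`, the
known case, or weakly compact).  Then `(κ ; κ⁺) → (κ κ ; κ κ)^{1,1}`.  In particular, under GCH the answer to Q1 is positive for
all singular cardinals of weakly compact cofinality.

Proof.  Let `κ = sup k_t`, `t < κ'`, with regular `k_t`, `2 ^ (sup_{s < t} k_s) < k_t`.  For a column `η < κ⁺` and `s < κ'` let `Cl_s(η)` be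
the set of the columns with the same colours as `η` in the rows below `k_s`; for all but `κ` many `η` all `Cl_s(η)` have size `κ⁺`.  Take such
a column `δ`, sets `B_s ⊆ Cl_s(δ)` of size `k_s`, and for every `ρ ∈ B_s` sets `B_{ρ,s'} ⊆ Cl_{s'}(ρ)` of size `k_{s'}`.  By the pigeonhole
principle there are sets `A_t` of `k_t` rows below `k_t` such that the colour of `(α, ξ)` for `α ∈ A_t` does not depend on `α`, for the
columns `ξ` in all these sets with `s, s' < t`; call it `g_t(ξ)`.  Thin out the sets `B_s`, `B_{ρ,s'}` such that the function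
`t ↦ g_t(ξ)` is the same for all `ξ` in such a set, and choose `ρ_s ∈ B_s`.  By the partition property (applied to the lexicographic
order of the functions `x_t = (g_t(δ), g_t(ρ_s), g_t(B_{ρ_s,s'}))_{s,s'}`) there is an unbounded set `I` of `t`'s along which all these
coordinates are eventually constant; call the limits `e`, `e_s`, `e_{s,s'}`.  If `e_{s,s'} = e_s` for some `s` and unboundedly many `s'`, then
`ρ_s`, the sets `B_{ρ_s,s'}` and the sets `A_t`, for a sparse set of indices, give a homogeneous set.  The same holds for `δ` if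
`e_s = e` for unboundedly many `s` or if for unboundedly many `s` there is `s' ≥ s` with `e_{s,s'} = e` (as
`B_{ρ_s,s'} ⊆ Cl_s(δ)`).  As there are only two colours, one of these three cases must occur.
-/

universe u

namespace Pool.Agent.Results.MP_f61043_lc.WeaklyCompactCofinality

open Cardinal F61C

/-- Let `κ` be a singular strong limit cardinal (in particular, under GCH, any singular cardinal) whose cofinality `κ'` satisfies
`κ' → (κ')²₂`.  Then `(κ ; κ⁺) → (κ κ ; κ κ)^{1,1}`. -/
theorem result :
    (∀ κ : Cardinal.{u}, κ.IsStrongLimit → κ.IsSingular → Arrow2 κ.ord.cof → Pol κ (Order.succ κ)) ∧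
    ((∀ μ : Cardinal.{u}, ℵ₀ ≤ μ → (2 : Cardinal.{u}) ^ μ = Order.succ μ) →
      ∀ κ : Cardinal.{u}, κ.IsSingular → Arrow2 κ.ord.cof → Pol κ (Order.succ κ)) :=
  ⟨fun _ h1 h2 h3 => pol_of h1 h2.cof_ord_lt h3,
    fun hG _ h2 h3 => pol_of (strong_of_gch hG h2) h2.cof_ord_lt h3⟩

end Pool.Agent.Results.MP_f61043_lc.WeaklyCompactCofinality
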